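import Mathlib
import Pool.Agent.H.MP_9e467c_al.A

set_option autoImplicit false
set_option linter.style.haveILetI false

namespace Pool.Agent.Results.MP_9e467c_al.Counter

/-- Vertices of the rooted 5-regular tree: finite strings over a 5-letter alphabet. -/
abbrev V : Type := List (Fin 5)

/-- Edges of the tree: a string is joined to each of its one-letter extensions. -/
def Adj (u v : V) : Prop := (∃ x, v = u ++ [x]) ∨ (∃ x, u = v ++ [x])

/-- `Aut(T)`: the graph automorphisms of the tree. -/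
def AutT : Subgroup (Equiv.Perm V) where
  carrier := {g | ∀ u v, Adj (g u) (g v) ↔ Adj u v}
  one_mem' := fun _ _ => Iff.rfl
  mul_mem' := fun hg hh u v => (hg _ _).trans (hh u v)
  inv_mem' := fun {g} hg u v => by simpa using (hg (g⁻¹ u) (g⁻¹ v)).symm

/-- `St_G(n)`: the pointwise stabiliser in `G` of the `n`-th layer. -/
def St (G : Subgroup (Equiv.Perm V)) (n : ℕ) : Subgroup (Equiv.Perm V) where
  carrier := {g | g ∈ G ∧ ∀ u : V, u.length = n → g u = u}
  one_mem' := ⟨G.one_mem, fun _ _ => rfl⟩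
  mul_mem' := fun hg hh => ⟨G.mul_mem hg.1 hh.1, fun u hu => by
    rw [Equiv.Perm.mul_apply, hh.2 u hu, hg.2 u hu]⟩
  inv_mem' := fun hg => ⟨G.inv_mem hg.1, fun u hu => by
    rw [Equiv.Perm.inv_eq_iff_eq, hg.2 u hu]⟩

/-- `rist_G(v)`: the elements of `St_G(|v|)` acting trivially on every subtree rooted at a vertex
`u ≠ v` of the same layer. -/
def rist (G : Subgroup (Equiv.Perm V)) (v : V) : Subgroup (Equiv.Perm V) where
  carrier := {g | g ∈ St G v.length ∧
    ∀ u : V, u.length = v.length → u ≠ v → ∀ w : V, g (u ++ w) = u ++ w}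
  one_mem' := ⟨one_mem _, fun _ _ _ _ => rfl⟩
  mul_mem' := fun hg hh => ⟨mul_mem hg.1 hh.1, fun u h1 h2 w => by
    rw [Equiv.Perm.mul_apply, hh.2 u h1 h2, hg.2 u h1 h2]⟩
  inv_mem' := fun hg => ⟨inv_mem hg.1, fun u h1 h2 w => by
    rw [Equiv.Perm.inv_eq_iff_eq, hg.2 u h1 h2]⟩

/-- `Rist_G(n)`: the subgroup generated by the `rist_G(v)`, `v` in the `n`-th layer. -/
def Rist (G : Subgroup (Equiv.Perm V)) (n : ℕ) : Subgroup (Equiv.Perm V) :=
  ⨆ v : {v : V // v.length = n}, rist G v.1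

/-- Branch group: transitive on every layer, and every `Rist_G(n)` has finite index in `G`
(Mathlib's `relIndex` is `0` exactly when the index is infinite). -/
def IsBranch (G : Subgroup (Equiv.Perm V)) : Prop :=
  (∀ u v : V, u.length = v.length → ∃ g ∈ G, g u = v) ∧ ∀ n, (Rist G n).relIndex G ≠ 0

open Pool.Agent.H.MP_9e467c_al Equiv Subgroup

def G0 : Subgroup P := closure (Gen {0, 1} ∪ {sg})

lemma G1_le : K {0, 1} ≤ G0 := closure_mono Set.subset_union_left

lemma sg_mem : sg ∈ G0 := subset_closure (.inr rfl)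

lemma sg_conj {g : P} (hg : g ∈ K {0, 1}) : sg * g * sg ∈ K {0, 1} := by
  have : K {0, 1} ≤ (K {0, 1}).comap (MulAut.conj sg).toMonoidHom := by
    refine (closure_le _).2 ?_
    rintro _ ⟨α, hα, rfl | ⟨i, hi, rfl⟩⟩
    · change sg * rt α * sg ∈ K _
      rw [sg_rt]
      exact rt_mem (sA hα)
    · change sg * dr i α * sg ∈ K _
      rw [sg_dr]
      refine dr_mem (sA hα) ?_
      rcases hi with rfl | rfl <;> simp [s]
  exact this hg

lemma G_cases {g : P} (hg : g ∈ G0) : g * sg ∈ K {0, 1} ∨ g ∈ K {0, 1} := by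
  have e : ∀ g : P, sg * (sg * g) = g := fun g => by rw [← mul_assoc, sg_sq, one_mul]
  induction hg using closure_induction with
  | one => exact .inr (one_mem _)
  | mem g hg =>
    rcases hg with hg | rfl
    exacts [.inr (subset_closure hg), .inl (sg_sq ▸ one_mem _)]
  | inv g _ hg =>
    rcases hg with hg | hg
    · exact .inl (by simpa [sg_inv, mul_assoc, e] using sg_conj (inv_mem hg))
    · exact .inr (inv_mem hg)
  | mul g h _ _ hg hh =>
    rcases hg with hg | hg <;> rcases hh with hh | hh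
    · exact .inr (by simpa [mul_assoc, e, sg_sq] using mul_mem hg (sg_conj hh))
    · exact .inl (by simpa [mul_assoc, e, sg_sq] using mul_mem hg (sg_conj hh))
    · exact .inl (by simpa [mul_assoc] using mul_mem hg hh)
    · exact .inr (mul_mem hg hh)

lemma sg_not : sg ∉ K {0, 1} := fun h => by
  obtain ⟨a, ha, f, h1, -⟩ := K_dec h
  have : s = a := Equiv.ext fun y => (List.cons.inj (h1.2 y [])).1
  simp [← this, s, Perm.mem_alternatingGroup] at ha

lemma idx2 : (K {0, 1}).relIndex G0 = 2 :=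
  relIndex_eq_two_iff_exists_notMem_and.2 ⟨sg, sg_mem, sg_not, fun _ h => G_cases h⟩

lemma G_dec {g : P} (hg : g ∈ G0) : ∃ a f, Dec g a f ∧ ∀ y, f y ∈ G0 := by
  rcases G_cases hg with h | h <;> obtain ⟨a, -, f, h1, h2⟩ := K_dec h
  · have := h1.mul dec_sg
    rw [mul_assoc, sg_sq, mul_one] at this
    exact ⟨_, _, this, fun y => mul_mem (G1_le (h2 _)) sg_mem⟩
  · exact ⟨a, f, h1, fun y => G1_le (h2 y)⟩

lemma G_app (v : V) (x : X) : ∀ g ∈ G0, (g v).length = v.length ∧ ∃ y, g (v ++ [x]) = g v ++ [y] := by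
  induction v with
  | nil =>
    intro g hg
    obtain ⟨a, f, h1, h2⟩ := G_dec hg
    obtain ⟨_, _, h3, -⟩ := G_dec (h2 x)
    exact ⟨by rw [h1.1], a x, by rw [List.nil_append, h1.2, h1.1, h3.1]; rfl⟩
  | cons z v ih =>
    intro g hg
    obtain ⟨a, f, h1, h2⟩ := G_dec hg
    obtain ⟨h3, y, h4⟩ := ih _ (h2 z)
    exact ⟨by simp [h1.2, h3], y, by rw [List.cons_append, h1.2, h1.2, h4]; rfl⟩

lemma G_aut : G0 ≤ AutT := by
  have : ∀ g ∈ G0, ∀ u v, Adj u v → Adj (g u) (g v) := by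
    rintro g hg u v (⟨x, rfl⟩ | ⟨x, rfl⟩)
    exacts [.inl (G_app u x g hg).2, .inr (G_app v x g hg).2]
  exact fun g hg u v => ⟨fun h => by simpa using this _ (inv_mem hg) _ _ h, this g hg u v⟩

lemma branch {I : Set X} (h0 : 0 ∈ I) (h2 : 2 ∉ I) {L : Subgroup P} (h1 : K I ≤ L) (h3 : L ≤ G0)
    (h4 : (K I).relIndex L ≠ 0) : IsBranch L := by
  refine ⟨fun u v h => (K_trans h0 h2 u v h).imp fun g hg => ⟨h1 hg.1, hg.2⟩, fun n => ?_⟩
  haveI : Finite {v : V // v.length = n} := List.finite_length_eq X n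
  have k1 : (⨅ u : {v : V // v.length = n}, MulAction.stabilizer P u.1).relIndex L ≠ 0 := by
    refine relIndex_iInf_ne_zero fun u => ?_
    change (MulAction.stabilizer L u.1).index ≠ 0
    rw [MulAction.index_stabilizer]
    refine ((Set.ncard_pos ((List.finite_length_eq X n).subset ?_)).2
      ⟨_, MulAction.mem_orbit_self _⟩).ne'
    rintro _ ⟨g, rfl⟩
    exact (G_app u.1 0 g.1 (h3 g.2)).1.trans u.2
  refine fun h => relIndex_inf_ne_zero h4 k1 (relIndex_eq_zero_of_le_left ?_ h)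
  rintro g ⟨hg, hg'⟩
  refine (closure_le _).2 ?_ (K_st n g hg fun u hu => mem_iInf.1 hg' ⟨u, hu⟩)
  rintro _ ⟨v, hv, k, hk, rfl⟩
  have k2 : ∀ u : V, u.length = v.length → u ≠ v → ∀ w : V, locs v k (u ++ w) = u ++ w :=
    fun u hu hne w => locs_ne v k _ fun ⟨t, ht⟩ => hne (List.append_inj_left ht hu.symm).symm
  refine mem_iSup_of_mem ⟨v, hv⟩ ⟨⟨h1 (locs_mem h0 h2 v hk), fun u hu => ?_⟩, k2⟩
  by_cases e : u = v
  · obtain ⟨_, _, _, k3, -⟩ := K_dec hk
    simpa [e, k3.1] using locs_self v k []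
  · simpa using k2 u hu e []

lemma rep_inj : ∀ (i j : ℕ) (t w : V),
    List.replicate i 0 ++ 3 :: t = List.replicate j 0 ++ 3 :: w → i = j
  | 0, 0, _, _, _ => rfl
  | 0, _ + 1, _, _, h => absurd (List.cons.inj h).1 (by decide)
  | _ + 1, 0, _, _, h => absurd (List.cons.inj h).1 (by decide)
  | i + 1, j + 1, t, w, h => congrArg _ (rep_inj i j t w (List.cons.inj h).2)

lemma idx0 : (K {0}).relIndex G0 = 0 := by
  let α : Perm X := swap 0 4 * swap 0 3
  have hα : α ∈ A := by simp [α, Perm.mem_alternatingGroup]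
  have m : ∀ i, locs (List.replicate i 0 ++ [3]) (dr 1 α) ∈ G0 := fun i =>
    G1_le (locs_mem (by simp) (by simp) _ (dr_mem hα (by simp)))
  refine index_eq_zero_iff_infinite.2 (.of_injective
    (fun i => ((⟨_, m i⟩ : G0) : G0 ⧸ (K {0}).subgroupOf G0))
    fun i j h => by_contra fun hne => ?_)
  beta_reduce at h
  obtain ⟨l, hl, e⟩ := K_list (mem_subgroupOf.1 (QuotientGroup.eq.1 h))
  obtain ⟨u, hu⟩ := H_triv _ l le_rfl hl (List.replicate j 0 ++ [3]) [2, 0]
  rw [e] at hu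
  change (locs _ _)⁻¹ (locs _ _ _) = _ at hu
  rw [locs_self, dr_rep, ← map_inv, locs_ne _ _ _ fun ⟨t, ht⟩ =>
    hne (rep_inj _ _ _ _ (by simpa using ht)), ← List.append_assoc] at hu
  exact absurd (List.append_inj_right' hu rfl) (by decide)

theorem result : ∃ G H : Subgroup (Equiv.Perm V), G ≤ AutT ∧ G.FG ∧ IsBranch G ∧
    H ≤ G ∧ IsBranch H ∧ H.relIndex G = 0 ∧
    ∀ M : Subgroup (Equiv.Perm V), M ⋖ G → H ≤ M → M.relIndex G ≠ 0 := by
  have k0 : K {0} ≤ G0 := (K_mono (by simp)).trans G1_le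
  refine ⟨G0, K {0}, G_aut, ?_, branch (by simp) (by simp) G1_le le_rfl (by simp [idx2]), k0,
    branch (I := {0}) rfl (by simp) le_rfl k0 (by simp), idx0, fun M hM h0 => ?_⟩
  · refine (Subgroup.fg_iff _).2 ⟨_, rfl, .union (((Set.finite_range rt).union
      (Set.finite_range fun p : X × Perm X => dr p.1 p.2)).subset ?_) (Set.finite_singleton _)⟩
    rintro _ ⟨α, -, rfl | ⟨i, -, rfl⟩⟩
    exacts [.inl ⟨α, rfl⟩, .inr ⟨(i, α), rfl⟩]
  by_cases h : M ≤ K {0, 1}
  · rcases hM.eq_or_eq h G1_le with e | e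
    · rw [← e, idx2]
      decide
    · exact absurd (e ▸ sg_mem) sg_not
  obtain ⟨g, hg, hg'⟩ := SetLike.not_le_iff_exists.1 h
  obtain ⟨l, hl, e⟩ := K_list ((G_cases (hM.le hg)).resolve_right hg')
  have e' : l.prod * sg = g := by rw [e, mul_assoc, sg_sq, mul_one]
  have k1 := twist _ l le_rfl hl M h0 fun k hk => e' ▸ mul_mem (mul_mem hg hk) (inv_mem hg)
  refine absurd ((closure_le _).2 ?_) hM.lt.not_ge
  rintro t (ht | rfl)
  · exact k1 (subset_closure ht)
  · simpa using mul_mem (inv_mem hg) (k1 ((G_cases (hM.le hg)).resolve_right hg'))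

end Pool.Agent.Results.MP_9e467c_al.Counter
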